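import Pool.Agent.BLP.StmtsA

/-!
# Squad BLP, row A_INC: increments
-/

set_option autoImplicit false

namespace Pool.Agent.BLP.H76

theorem a_inc (hO : OneStmt) (hS : SpkStmt) (hL : LevStmt) : IncStmt := by
  intro b hb m n hmn
  have h1 := (hO b).1
  refine ⟨?_, ?_, ?_⟩
  · intro s s' t hs ht
    have h2 := hS b hb m m n s s' t le_rfl hmn hs ht
    have h3 := h1 m s s' hs
    linarith
  · intro s t t' hs ht
    have h2 := hS b hb m n n s t t' hmn le_rfl hs ht
    have h3 := h1 n t t' ht
    linarith
  · intro k s t hk hn hs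
    have h2 := (hL b hb m k n s t hk hn hs).1
    have h3 := (hL b hb k k n s t le_rfl hn hs).2
    have h4 := h1 k s t hs
    linarith

end Pool.Agent.BLP.H76
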