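import Pool.Agent.BLP.StmtsD

/-!
# Squad BLP, row D_UNQ: uniqueness of the continuous version
-/

set_option autoImplicit false

namespace Pool.Agent.BLP.H76

open MeasureTheory ProbabilityTheory Filter Topology

theorem d_unq : UnqStmt := by
  intro Ω _ P B β β' h h' hc hc'
  have h1 : ∀ᵐ ω ∂P, ∀ (q : ℚ) (m n : ℤ) (r s : ℚ), 0 < q →
      β q (m, (r : ℝ)) (n, (s : ℝ)) ω = β' q (m, (r : ℝ)) (n, (s : ℝ)) ω := by
    rw [ae_all_iff]
    intro q
    rw [ae_all_iff]
    intro m
    rw [ae_all_iff]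
    intro n
    rw [ae_all_iff]
    intro r
    rw [ae_all_iff]
    intro s
    by_cases hq : 0 < q
    · have h2 := tendstoInMeasure_ae_unique (h q hq (m, (r : ℝ)) (n, (s : ℝ)))
        (h' q hq (m, (r : ℝ)) (n, (s : ℝ)))
      filter_upwards [h2] with ω hω _ using hω
    · exact Eventually.of_forall fun ω h3 => absurd h3 hq
  filter_upwards [h1, hc, hc'] with ω h2 h3 h4 q hq x y
  obtain ⟨m, a⟩ := x
  obtain ⟨n, c⟩ := y
  have h5 : DenseRange (Prod.map (fun r : ℚ => (r : ℝ)) (fun r : ℚ => (r : ℝ))) :=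
    Rat.denseRange_cast.prodMap Rat.denseRange_cast
  have h6 := h5.equalizer (h3 q hq m n) (h4 q hq m n) (by
    funext p
    exact h2 q m n p.1 p.2 hq)
  exact congrFun h6 (a, c)

end Pool.Agent.BLP.H76
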