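import Pool.Agent.BLP.StmtsE

/-!
# Squad BLP, row E_EMV: the expectations of the increments
-/

set_option autoImplicit false

namespace Pool.Agent.BLP.H76

open MeasureTheory ProbabilityTheory Filter Topology

theorem e_emv (hI : EexStmt) (hC : EccStmt) (hA : EasStmt) : EmvStmt := by
  intro X _ μ B c hS hL q hq k m s t
  have hq' : (0 : ℝ) < (q : ℝ) := by exact_mod_cast hq
  have h1 := hA (aa μ B) c (hC X μ B hS) hL.2.1 q k s hq'
  have h2 := hA (aa μ B) c (hC X μ B hS) hL.2.1 q m t hq'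
  have h3 := h1.sub h2
  have hlim : -(c / 2 * ((k : ℝ) * Real.sqrt q + (s : ℝ) / Real.sqrt q)) -
      -(c / 2 * ((m : ℝ) * Real.sqrt q + (t : ℝ) / Real.sqrt q)) =
      c / 2 * (((m : ℝ) - k) * Real.sqrt q + ((t : ℝ) - s) / Real.sqrt q) := by ring
  rw [hlim] at h3
  refine Tendsto.congr' ?_ h3
  have key : ∀ (k : ℤ) (s : ℚ), ∀ᶠ n : ℕ in atTop,
      Integrable (fun x => L (B x) k s n (n * q)) μ ∧
        ∫ x, L (B x) k s n (n * q) ∂μ =
          aa μ B ((n : ℤ) - k + 1).toNat * Real.sqrt (n * q - s) := by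
    intro k s
    obtain ⟨N, hN⟩ := exists_nat_ge (s / q)
    filter_upwards [eventually_ge_atTop N, eventually_ge_atTop k.toNat] with n hn hn'
    have e1 : k ≤ (n : ℤ) := by
      have := Int.self_le_toNat k
      omega
    have e2 : s ≤ (n : ℚ) * q := by
      have h4 : s / q ≤ (n : ℚ) := hN.trans (by exact_mod_cast hn)
      rwa [div_le_iff₀ hq] at h4
    have h5 := hI X μ B hS k n s ((n : ℚ) * q) e1 e2
    have e3 : (((n : ℚ) * q : ℚ) : ℝ) = (n : ℝ) * (q : ℝ) := by push_cast; rfl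
    rw [e3] at h5
    exact h5
  filter_upwards [key k s, key m t] with n hn hn'
  rw [integral_sub hn.1 hn'.1, hn.2, hn'.2]
  ring

end Pool.Agent.BLP.H76
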